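import Mathlib

/-! Definitions and statements for the count of the integers `k` whose Mordell equation
`y ^ 2 = x ^ 3 + k` has an integral point of height at most `exp (K ^ (1 / 10000))`. -/

namespace Pool.Agent.W223.HZ

open Polynomial

noncomputable section

/-- `4 k` for the cubic form `(a, 3 b, 3 c, d)`. -/
def disc4 (a b c d : ℤ) : ℤ :=
  a ^ 2 * d ^ 2 - 6 * a * b * c * d + 4 * a * c ^ 3 + 4 * b ^ 3 * d - 3 * b ^ 2 * c ^ 2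

/-- `(a, 3 b, 3 c, d)` is in the box of size `R`, shape `T`, and takes the value `1` at `(p, q)`,
a point of size `V`. -/
structure Good (C R T V : ℝ) (a b c d p q : ℤ) : Prop where
  ha : |(a : ℝ)| * T ^ 3 ≤ C * R
  hb : |(b : ℝ)| * T ≤ C * R
  hc : |(c : ℝ)| ≤ C * (R * T)
  hd : |(d : ℝ)| ≤ C * (R * T ^ 3)
  hp : |(p : ℝ)| ≤ C * (T * V)
  hq : |(q : ℝ)| * T ≤ C * V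
  heq : a * p ^ 3 + 3 * b * p ^ 2 * q + 3 * c * p * q ^ 2 + d * q ^ 3 = 1

def Chart2 (C R T V : ℝ) (a b c p q : ℤ) : Prop :=
  V ≤ C * (|(q : ℝ)| * T) ∧
    R * V ^ 2 ≤ C * (T * |((a * p ^ 2 + 2 * b * p * q + c * q ^ 2 : ℤ) : ℝ)|)

def Chart1 (C R T V : ℝ) (b c d p q : ℤ) : Prop :=
  T * V ≤ C * |(p : ℝ)| ∧
    R * (T * V ^ 2) ≤ C * |((b * p ^ 2 + 2 * c * p * q + d * q ^ 2 : ℤ) : ℝ)|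

/-- LAT: a basis of `ℤ ^ 2` adapted to `(α, V)`. -/
def StmtLAT : Prop := ∀ (α V : ℝ), 1 ≤ V → ∃ (u₁ v₁ u₂ v₂ : ℤ) (j : ℕ),
  u₁ * v₂ - u₂ * v₁ = 1 ∧ 1 ≤ v₁ ∧ |(u₁ : ℝ) - α * v₁| * V ≤ 1 ∧ (v₁ : ℝ) ≤ V ∧
  ((((u₁ : ℝ) - α * v₁) * V) ^ 2 + (v₁ / V) ^ 2) * (2 ^ j / 2) ^ 2 ≤ 1 ∧
  (((u₂ : ℝ) - α * v₂) * V) ^ 2 + (v₂ / V) ^ 2 ≤ 8 * (2 ^ j / 2) ^ 2

/-- The coefficients of the form `f(m u₁ + n u₂, m v₁ + n v₂)`, `f = X³ - 3 x X Y² + 2 y Y³`. -/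
def cA (x y u v : ℤ) : ℤ := u ^ 3 - 3 * x * u * v ^ 2 + 2 * y * v ^ 3

def cB (x y u₁ v₁ u₂ v₂ : ℤ) : ℤ :=
  u₁ ^ 2 * u₂ - x * (u₂ * v₁ ^ 2 + 2 * u₁ * v₁ * v₂) + 2 * y * v₁ ^ 2 * v₂

/-- GD1: from a basis to a good form, sizes. -/
def StmtGD1 : Prop := ∀ (R α V V₀ T : ℝ), 20 ≤ R → 0 < α → V = α / R → 1 ≤ V₀ → V₀ ≤ V →
  V < 2 * V₀ → 1 / 2 ≤ T → ∀ (x y k : ℤ), α ^ 2 = x → 0 ≤ y → y ^ 2 = x ^ 3 + k →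
  |(k : ℝ)| ≤ R ^ 4 → ∀ (u₁ v₁ u₂ v₂ : ℤ), u₁ * v₂ - u₂ * v₁ = 1 → 1 ≤ v₁ →
  ((((u₁ : ℝ) - α * v₁) * V) ^ 2 + (v₁ / V) ^ 2) * T ^ 2 ≤ 1 →
  (((u₂ : ℝ) - α * v₂) * V) ^ 2 + (v₂ / V) ^ 2 ≤ 8 * T ^ 2 →
  Good 200 R T V₀ (cA x y u₁ v₁) (cB x y u₁ v₁ u₂ v₂) (cB x y u₂ v₂ u₁ v₁) (cA x y u₂ v₂)
      v₂ (-v₁) ∧
    disc4 (cA x y u₁ v₁) (cB x y u₁ v₁ u₂ v₂) (cB x y u₂ v₂ u₁ v₁) (cA x y u₂ v₂) = 4 * k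

/-- GD2: from a basis to a good form, charts. -/
def StmtGD2 : Prop := ∀ (R α V V₀ T : ℝ), 20 ≤ R → 0 < α → V = α / R → 1 ≤ V₀ → V₀ ≤ V →
  V < 2 * V₀ → 1 / 2 ≤ T → ∀ (x y : ℤ), α ^ 2 = x →
  ∀ (u₁ v₁ u₂ v₂ : ℤ), u₁ * v₂ - u₂ * v₁ = 1 → 1 ≤ v₁ →
  ((((u₁ : ℝ) - α * v₁) * V) ^ 2 + (v₁ / V) ^ 2) * T ^ 2 ≤ 1 →
  (((u₂ : ℝ) - α * v₂) * V) ^ 2 + (v₂ / V) ^ 2 ≤ 8 * T ^ 2 →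
  Chart2 200 R T V₀ (cA x y u₁ v₁) (cB x y u₁ v₁ u₂ v₂) (cB x y u₂ v₂ u₁ v₁) v₂ (-v₁) ∨
    Chart1 200 R T V₀ (cB x y u₁ v₁ u₂ v₂) (cB x y u₂ v₂ u₁ v₁) (cA x y u₂ v₂) v₂ (-v₁)

/-- RED: the reduction. -/
def StmtRED : Prop := ∀ R : ℝ, 20 ≤ R → ∀ x y k : ℤ, y ^ 2 = x ^ 3 + k → 0 ≤ y →
  |(k : ℝ)| ≤ R ^ 4 → R ^ 3 ≤ (x : ℝ) →
  (∃ u v : ℤ, IsCoprime u v ∧ 1 ≤ v ∧ |(u : ℝ) - √(x : ℝ) * v| * √(x : ℝ) ≤ R ∧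
    u ^ 3 - 3 * x * u * v ^ 2 + 2 * y * v ^ 3 = 0) ∨
  (∃ (i j : ℕ) (a b c d p q : ℤ), (2 : ℝ) ^ i ≤ √(x : ℝ) / R ∧ √(x : ℝ) / R < 2 ^ (i + 1) ∧
    a ≠ 0 ∧ Good 200 R (2 ^ j / 2) (2 ^ i) a b c d p q ∧
    (Chart2 200 R (2 ^ j / 2) (2 ^ i) a b c p q ∨ Chart1 200 R (2 ^ j / 2) (2 ^ i) b c d p q) ∧
    disc4 a b c d = 4 * k)

/-- DET: multilinear expansion of a determinant. -/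
def StmtDET : Prop := ∀ {n : Type} [Fintype n] [DecidableEq n] (M : ℕ) (v w : Fin M → n → ℝ)
  (ρ : n → ℝ), (∀ j, 0 ≤ ρ j) → (∀ k j, |v k j| ≤ ρ j) → (∀ k j, |w k j| ≤ ρ j) →
  ∀ (z ε : n → ℝ) (δ e : ℝ), (∀ i, |z i| ≤ δ) → δ ≤ 1 → (∀ i, |ε i| ≤ e) →
  ∀ Y : ℝ, (∀ s ≤ Fintype.card n, e ^ s * δ ^ ((Fintype.card n - s) * (Fintype.card n - s - 1) / 2
    + s * (s - 1) / 2) ≤ Y) →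
  |Matrix.det (Matrix.of fun i j : n => ∑ k : Fin M, z i ^ (k : ℕ) * (v k j + ε i * w k j))| ≤
    (Fintype.card n).factorial * (2 * M) ^ (Fintype.card n) * (∏ j, ρ j) * Y

/-- A family `(τ i, y i)` is parametrised by polynomials of a small parameter, up to an error. -/
def Param (C₄ S L e : ℝ) {ι : Type} (τ : ι → ℤ) (y : ι → ℝ) : Prop :=
  ∀ m : ℕ, ∃ (f : Fin m → ℝ[X]) (l0 l1 : ℝ) (ω z ε : ι → ℝ),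
    (∀ j, (f j).natDegree ≤ 3 * m) ∧ (∀ j k, |(f j).coeff k| ≤ C₄ ^ m) ∧ |l0| ≤ C₄ ∧ |l1| ≤ C₄ ∧
    (∀ i, 1 ≤ C₄ ^ m * ω i) ∧ (∀ i, |z i| ≤ C₄ * (L / S)) ∧ (∀ i, |ε i| ≤ C₄ * e) ∧
    (∀ i (j : Fin m), ω i * (τ i : ℝ) ^ (j : ℕ) = S ^ (j : ℕ) * (f j).eval (z i)) ∧
    (∀ i, y i = l0 + l1 * z i + ε i)

/-- DPB: determinant bound for a parametrised family. -/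
def StmtDPB : Prop := ∀ C₄ : ℝ, 1 ≤ C₄ → ∃ C₅ : ℝ, 1 ≤ C₅ ∧ ∀ (m : ℕ) (S L V : ℝ), 1 ≤ m →
  0 < S → 0 < L → C₄ * L ≤ S → 1 ≤ V → ∀ (τ : Fin m ⊕ Fin m → ℤ) (y : Fin m ⊕ Fin m → ℝ),
  Param C₄ S L (1 / V ^ 3) τ y → ∀ Y : ℝ,
  (∀ u : ℤ, |u| ≤ m →
    V ^ (3 * u - m) * L ^ (m * (m - 1)) * (L / S) ^ (u.natAbs ^ 2) ≤ Y) →
  V ^ (2 * m) * |Matrix.det (Matrix.of fun i : Fin m ⊕ Fin m =>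
    Sum.elim (fun j : Fin m => (τ i : ℝ) ^ (j : ℕ)) (fun j : Fin m => y i * (τ i : ℝ) ^ (j : ℕ)))|
    ≤ C₅ ^ (m ^ 2) * Y

/-- C2R: the real variable part of chart 2. -/
def StmtC2R : Prop := ∀ C : ℝ, 1 ≤ C → ∃ c₀ C₄ : ℝ, 0 < c₀ ∧ 1 ≤ C₄ ∧
  ∀ (S L e A B G : ℝ) (ι : Type) (τ : ι → ℤ) (D y : ι → ℝ) (i₀ : ι), 0 < S → 0 ≤ L →
  C₄ * L ≤ S → 0 ≤ e → C₄ * e ≤ 1 → |A| ≤ C → |B| ≤ C → |G| ≤ C → (∀ i, |D i| ≤ C) →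
  (∀ i, |y i| ≤ C) → (∀ i, |A * y i ^ 3 + 3 * B * y i ^ 2 + 3 * G * y i + D i| ≤ e) →
  (∀ i, 1 ≤ C * |A * y i ^ 2 + 2 * B * y i + G|) → (∀ i j, |y i - y j| ≤ c₀) →
  (∀ i, (τ i : ℝ) = S * (D i - D i₀)) → (∀ i, |(τ i : ℝ)| ≤ L) → Param C₄ S L e τ y

/-- C1R: the real variable part of chart 1. -/
def StmtC1R : Prop := ∀ C : ℝ, 1 ≤ C → ∃ c₀ C₄ : ℝ, 0 < c₀ ∧ 1 ≤ C₄ ∧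
  ∀ (S L e A B G : ℝ) (ι : Type) (τ : ι → ℤ) (D y : ι → ℝ) (i₀ : ι), 0 < S → 0 ≤ L →
  C₄ * L ≤ S → 0 ≤ e → C₄ * e ≤ 1 → A ≠ 0 → |A| ≤ C → |B| ≤ C → |G| ≤ C → (∀ i, |D i| ≤ C) →
  (∀ i, |y i| ≤ C) → (∀ i, |A + 3 * B * y i + 3 * G * y i ^ 2 + D i * y i ^ 3| ≤ e) →
  (∀ i, 1 ≤ C * |B + 2 * G * y i + D i * y i ^ 2|) → (∀ i j, |y i - y j| ≤ c₀) →
  (∀ i, (τ i : ℝ) = S * (D i - D i₀)) → (∀ i, |(τ i : ℝ)| ≤ L) → Param C₄ S L e τ y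

/-- The integral matrix of a family of points. -/
def Mat (m : ℕ) (P Q τ : Fin m ⊕ Fin m → ℤ) : Matrix (Fin m ⊕ Fin m) (Fin m ⊕ Fin m) ℤ :=
  Matrix.of fun i => Sum.elim (fun j : Fin m => P i * τ i ^ (j : ℕ))
    (fun j : Fin m => Q i * τ i ^ (j : ℕ))

/-- PAR: the inequality between the parameters. -/
def StmtPAR : Prop := ∀ C₆ : ℝ, 1 ≤ C₆ → ∃ S₀ : ℝ, 1 ≤ S₀ ∧ ∀ (S σ : ℝ) (m : ℕ), S₀ ≤ S →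
  1 / 2 ≤ σ → m = ⌈5 * σ⌉₊ → ∃ Y : ℝ, C₆ ^ (m ^ 2) * Y < 1 ∧ ∀ u : ℤ, |u| ≤ m →
  (S ^ σ) ^ (3 * u - m) * (S ^ ((1 : ℝ) / 11)) ^ (m * (m - 1)) *
    (S ^ ((1 : ℝ) / 11) / S) ^ (u.natAbs ^ 2) ≤ Y

/-- VA2: the determinants vanish, chart 2. -/
def StmtVA2 : Prop := ∃ c₀ S₀ : ℝ, 0 < c₀ ∧ 1 ≤ S₀ ∧ ∀ (R T V σ : ℝ) (m : ℕ) (a b c : ℤ)
  (d₀ p₀ q₀ : ℤ) (P Q D : Fin m ⊕ Fin m → ℤ),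
  20 ≤ R → 1 / 2 ≤ T → S₀ ≤ R * T ^ 3 → 1 / 2 ≤ σ → V = (R * T ^ 3) ^ σ → m = ⌈5 * σ⌉₊ →
  (∀ i, Good 200 R T V a b c (D i) (P i) (Q i) ∧ Chart2 200 R T V a b c (P i) (Q i)) →
  Good 200 R T V a b c d₀ p₀ q₀ → Chart2 200 R T V a b c p₀ q₀ →
  (∀ i j, |(P i : ℝ) / (T ^ 2 * Q i) - P j / (T ^ 2 * Q j)| ≤ c₀) →
  (∀ i, |(P i : ℝ) / (T ^ 2 * Q i) - p₀ / (T ^ 2 * q₀)| ≤ c₀) →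
  (∀ i, |(D i : ℝ) - d₀| ≤ (R * T ^ 3) ^ ((1 : ℝ) / 11)) →
  (Mat m P Q (fun i => D i - d₀)).det = 0

/-- VA1: the determinants vanish, chart 1. -/
def StmtVA1 : Prop := ∃ c₀ S₀ : ℝ, 0 < c₀ ∧ 1 ≤ S₀ ∧ ∀ (R T V σ : ℝ) (m : ℕ) (a b c : ℤ)
  (d₀ p₀ q₀ : ℤ) (P Q D : Fin m ⊕ Fin m → ℤ), a ≠ 0 →
  20 ≤ R → 1 / 2 ≤ T → S₀ ≤ R * T ^ 3 → 1 / 2 ≤ σ → V = (R * T ^ 3) ^ σ → m = ⌈5 * σ⌉₊ →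
  (∀ i, Good 200 R T V a b c (D i) (P i) (Q i) ∧ Chart1 200 R T V b c (D i) (P i) (Q i)) →
  Good 200 R T V a b c d₀ p₀ q₀ → Chart1 200 R T V b c d₀ p₀ q₀ →
  (∀ i j, |(Q i : ℝ) * T ^ 2 / P i - Q j * T ^ 2 / P j| ≤ c₀) →
  (∀ i, |(Q i : ℝ) * T ^ 2 / P i - q₀ * T ^ 2 / p₀| ≤ c₀) →
  (∀ i, |(D i : ℝ) - d₀| ≤ (R * T ^ 3) ^ ((1 : ℝ) / 11)) →
  (Mat m P Q (fun i => D i - d₀)).det = 0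

/-- REL: all maximal minors vanish, hence a small relation. -/
def StmtREL : Prop := ∀ {ι κ : Type} [Fintype κ] [DecidableEq κ] (A : ι → κ → ℤ) (H : ℝ), 1 ≤ H →
  Nonempty ι → (∀ i j, |(A i j : ℝ)| ≤ H) →
  (∀ f : κ → ι, Matrix.det (Matrix.of fun i j => A (f i) j) = 0) →
  ∃ v : κ → ℤ, v ≠ 0 ∧ (∀ i, ∑ j, A i j * v j = 0) ∧
    ∀ j, |(v j : ℝ)| ≤ ((Fintype.card κ : ℝ) * H) ^ (Fintype.card κ)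

/-- The polynomial `F_{d₁ + X}(-B, A)`. -/
def GP (a b c d₁ : ℤ) (A B : ℤ[X]) : ℤ[X] :=
  -C a * B ^ 3 + 3 * C b * B ^ 2 * A - 3 * C c * B * A ^ 2 + (C d₁ + X) * A ^ 3

/-- NCU: it is not a cube. -/
def StmtNCU : Prop := ∀ (a b c d₁ : ℤ), a ≠ 0 → (∀ e : ℤ, e ^ 3 ≠ a) → ∀ A B P₁ P₂ : ℤ[X],
  (A ≠ 0 ∨ B ≠ 0) → (P₁ ≠ 0 ∨ P₂ ≠ 0) → P₁ ^ 3 + P₂ ^ 3 * GP a b c d₁ A B ≠ 0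

/-- PAD: divisibility of the determinant by a power of a prime. -/
def StmtPAD : Prop := ∀ (p : ℕ), p.Prime → 3 < p → ∀ (G : ℤ[X]) (m : ℕ), 1 ≤ m →
  ∀ (τ g : Fin m ⊕ Fin m → ℤ), (∀ i, g i ^ 3 = G.eval (τ i)) → (∀ i, ¬ (p : ℤ) ∣ g i) →
  (∀ i j, (p : ℤ) ∣ τ i - τ j) → (∀ i j, (p : ℤ) ∣ g i - g j) →
  (p : ℤ) ^ (m * (2 * m - 1)) ∣ Matrix.det (Matrix.of fun i : Fin m ⊕ Fin m =>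
    Sum.elim (fun j : Fin m => τ i ^ (j : ℕ)) (fun j : Fin m => g i * τ i ^ (j : ℕ)))

/-- CLS: the points in a residue class. -/
def StmtCLS : Prop := ∀ (a b c d₁ : ℤ), a ≠ 0 → (∀ e : ℤ, e ^ 3 ≠ a) → ∀ (A B : ℤ[X]) (m : ℕ),
  (A ≠ 0 ∨ B ≠ 0) → A.natDegree < m → B.natDegree < m → ∀ (p m' : ℕ), p.Prime → 3 < p → 1 ≤ m' →
  ∀ (L Gm : ℝ), 1 ≤ L → 1 ≤ Gm → (2 * m') ^ 2 * Gm * L ^ (m' - 1) < (p : ℝ) ^ (2 * m' - 1) →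
  ∀ (𝒯 : Finset ℤ) (g : ℤ → ℤ), (∀ τ ∈ 𝒯, g τ ^ 3 = (GP a b c d₁ A B).eval τ) →
  (∀ τ ∈ 𝒯, |(τ : ℝ)| ≤ L) → (∀ τ ∈ 𝒯, |(g τ : ℝ)| ≤ Gm) → (∀ τ ∈ 𝒯, ¬ (p : ℤ) ∣ g τ) →
  (∀ τ ∈ 𝒯, ∀ τ' ∈ 𝒯, (p : ℤ) ∣ τ - τ' ∧ (p : ℤ) ∣ g τ - g τ') →
  𝒯.card ≤ 3 * m' + 3 * m

/-- PRM: many primes. -/
def StmtPRM : Prop := ∀ N : ℕ, 100 ≤ N → ∃ P : Finset ℕ, N ≤ P.card ∧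
  ∀ p ∈ P, p.Prime ∧ N < p ∧ (p : ℝ) ≤ 16 * N * Real.log N

/-- PPR: choice of a prime. -/
def StmtPPR : Prop := ∀ (L Λ : ℝ), 1 ≤ L → 1 ≤ Λ → ∀ (𝒯 : Finset ℤ) (g : ℤ → ℤ),
  (∀ τ ∈ 𝒯, g τ ≠ 0) → (∀ τ ∈ 𝒯, |(g τ : ℝ)| ≤ Real.exp Λ) →
  ∃ p : ℕ, p.Prime ∧ 3 < p ∧ 16 * √L < p ∧ (p : ℝ) ≤ 1920 * √L * Λ * Real.log (120 * √L * Λ) ∧
    𝒯.card ≤ 2 * (𝒯.filter fun τ => ¬ (p : ℤ) ∣ g τ).card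

/-- CUB: the points on a relation. -/
def StmtCUB : Prop := ∀ (a b c d₁ : ℤ), a ≠ 0 → (∀ e : ℤ, e ^ 3 ≠ a) → ∀ (A B : ℤ[X]) (m : ℕ),
  (A ≠ 0 ∨ B ≠ 0) → A.natDegree < m → B.natDegree < m → ∀ (L H Λ : ℝ), 1 ≤ L → 1 ≤ H → 1 ≤ Λ →
  (m : ℝ) ≤ Λ → (m : ℝ) * H * L ^ m ≤ Real.exp Λ → (∀ k, |(A.coeff k : ℝ)| ≤ H) →
  (∀ k, |(B.coeff k : ℝ)| ≤ H) → ∀ 𝒯 : Finset ℤ, (∀ τ ∈ 𝒯, |(τ : ℝ)| ≤ L) →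
  (∀ τ ∈ 𝒯, ∃ p q : ℤ, p * A.eval τ + q * B.eval τ = 0 ∧
    a * p ^ 3 + 3 * b * p ^ 2 * q + 3 * c * p * q ^ 2 + (d₁ + τ) * q ^ 3 = 1) →
  (𝒯.card : ℝ) ≤ 200000 * √L * Λ ^ 2 * Real.log (120 * √L * Λ)

/-- INA: the asymptotics. -/
def StmtINA : Prop := ∃ S₀ : ℝ, 1 ≤ S₀ ∧ ∀ (S σ : ℝ) (m : ℕ), S₀ ≤ S → 1 / 2 ≤ σ →
  σ ≤ S ^ ((1 : ℝ) / 2500) → m = ⌈5 * σ⌉₊ → ∃ Λ : ℝ, 1 ≤ Λ ∧ (m : ℝ) ≤ Λ ∧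
    (m : ℝ) * (((m + m : ℕ) : ℝ) * (400 * S * S ^ σ * (S ^ ((1 : ℝ) / 11)) ^ m)) ^ (m + m) *
      (S ^ ((1 : ℝ) / 11)) ^ m ≤ Real.exp Λ ∧
    200000 * √(S ^ ((1 : ℝ) / 11)) * Λ ^ 2 * Real.log (120 * √(S ^ ((1 : ℝ) / 11)) * Λ) ≤
      S ^ ((1 : ℝ) / 22 + 1 / 400)

/-- IN2: an interval and a cell, chart 2. -/
def StmtIN2 : Prop := ∃ c₀ S₀ : ℝ, 0 < c₀ ∧ 1 ≤ S₀ ∧ ∀ (R T V : ℝ) (a b c : ℤ) (p q : ℤ → ℤ)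
  (𝒟 : Finset ℤ), a ≠ 0 → (∀ e : ℤ, e ^ 3 ≠ a) →
  20 ≤ R → 1 / 2 ≤ T → S₀ ≤ R * T ^ 3 → (R * T ^ 3) ^ ((1 : ℝ) / 2) ≤ V →
  Real.log V ≤ (R * T ^ 3) ^ ((1 : ℝ) / 2500) →
  (∀ d ∈ 𝒟, Good 200 R T V a b c d (p d) (q d) ∧ Chart2 200 R T V a b c (p d) (q d)) →
  (∀ d ∈ 𝒟, ∀ d' ∈ 𝒟, |(p d : ℝ) / (T ^ 2 * q d) - p d' / (T ^ 2 * q d')| ≤ c₀) →
  (∀ d ∈ 𝒟, ∀ d' ∈ 𝒟, |(d : ℝ) - d'| ≤ (R * T ^ 3) ^ ((1 : ℝ) / 11)) →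
  (𝒟.card : ℝ) ≤ (R * T ^ 3) ^ ((1 : ℝ) / 22 + 1 / 400)

/-- IN1: an interval and a cell, chart 1. -/
def StmtIN1 : Prop := ∃ c₀ S₀ : ℝ, 0 < c₀ ∧ 1 ≤ S₀ ∧ ∀ (R T V : ℝ) (a b c : ℤ) (p q : ℤ → ℤ)
  (𝒟 : Finset ℤ), a ≠ 0 → (∀ e : ℤ, e ^ 3 ≠ a) →
  20 ≤ R → 1 / 2 ≤ T → S₀ ≤ R * T ^ 3 → (R * T ^ 3) ^ ((1 : ℝ) / 2) ≤ V →
  Real.log V ≤ (R * T ^ 3) ^ ((1 : ℝ) / 2500) →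
  (∀ d ∈ 𝒟, Good 200 R T V a b c d (p d) (q d) ∧ Chart1 200 R T V b c d (p d) (q d)) →
  (∀ d ∈ 𝒟, ∀ d' ∈ 𝒟, |(q d : ℝ) * T ^ 2 / p d - q d' * T ^ 2 / p d'| ≤ c₀) →
  (∀ d ∈ 𝒟, ∀ d' ∈ 𝒟, |(d : ℝ) - d'| ≤ (R * T ^ 3) ^ ((1 : ℝ) / 11)) →
  (𝒟.card : ℝ) ≤ (R * T ^ 3) ^ ((1 : ℝ) / 22 + 1 / 400)

/-- FIB: the last coefficients, for given other coefficients. -/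
def StmtFIB : Prop := ∃ S₀ : ℝ, 1 ≤ S₀ ∧ ∀ (R T V : ℝ) (a b c : ℤ) (𝒟 : Finset ℤ), a ≠ 0 →
  (∀ e : ℤ, e ^ 3 ≠ a) → 20 ≤ R → 1 / 2 ≤ T → S₀ ≤ R * T ^ 3 →
  (R * T ^ 3) ^ ((1 : ℝ) / 2) ≤ V → Real.log V ≤ (R * T ^ 3) ^ ((1 : ℝ) / 2500) →
  (∀ d ∈ 𝒟, ∃ p q : ℤ, Good 200 R T V a b c d p q ∧
    (Chart2 200 R T V a b c p q ∨ Chart1 200 R T V b c d p q)) →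
  (𝒟.card : ℝ) ≤ (R * T ^ 3) ^ (1 - (1 : ℝ) / 22 + 1 / 300)

/-- CNC: the `k` from forms whose first coefficient is not a cube. -/
def StmtCNC : Prop := ∃ C R₀ : ℝ, 1 ≤ C ∧ 1 ≤ R₀ ∧ ∀ R T V : ℝ, R₀ ≤ R → 1 / 2 ≤ T →
  T ≤ R ^ ((26 : ℝ) / 100) → R ^ ((9 : ℝ) / 10) ≤ V →
  Real.log V ≤ 1 / 2 * R ^ ((1 : ℝ) / 2500) →
  {k : ℤ | ∃ a b c d p q : ℤ, Good 200 R T V a b c d p q ∧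
    (Chart2 200 R T V a b c p q ∨ Chart1 200 R T V b c d p q) ∧ a ≠ 0 ∧ (∀ e : ℤ, e ^ 3 ≠ a) ∧
    disc4 a b c d = 4 * k}.Finite ∧
  ({k : ℤ | ∃ a b c d p q : ℤ, Good 200 R T V a b c d p q ∧
    (Chart2 200 R T V a b c p q ∨ Chart1 200 R T V b c d p q) ∧ a ≠ 0 ∧ (∀ e : ℤ, e ^ 3 ≠ a) ∧
    disc4 a b c d = 4 * k}.ncard : ℝ) ≤ C * R ^ (4 - (1 : ℝ) / 22 + 1 / 300)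

/-- CCU: the `k` from forms whose first coefficient is a nonzero cube. -/
def StmtCCU : Prop := ∃ C : ℝ, 1 ≤ C ∧ ∀ R T : ℝ, 1 ≤ R → 1 / 2 ≤ T →
  T ≤ R ^ ((26 : ℝ) / 100) →
  {k : ℤ | ∃ a b c d e : ℤ, |(a : ℝ)| * T ^ 3 ≤ 200 * R ∧ |(b : ℝ)| * T ≤ 200 * R ∧
    |(c : ℝ)| ≤ 200 * (R * T) ∧ |(d : ℝ)| ≤ 200 * (R * T ^ 3) ∧ e ^ 3 = a ∧ a ≠ 0 ∧
    disc4 a b c d = 4 * k}.Finite ∧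
  ({k : ℤ | ∃ a b c d e : ℤ, |(a : ℝ)| * T ^ 3 ≤ 200 * R ∧ |(b : ℝ)| * T ≤ 200 * R ∧
    |(c : ℝ)| ≤ 200 * (R * T) ∧ |(d : ℝ)| ≤ 200 * (R * T ^ 3) ∧ e ^ 3 = a ∧ a ≠ 0 ∧
    disc4 a b c d = 4 * k}.ncard : ℝ) ≤ C * R ^ ((39 : ℝ) / 10)

/-- CLT: the `k` from forms of a large shape. -/
def StmtCLT : Prop := ∃ C : ℝ, 1 ≤ C ∧ ∀ R T : ℝ, 1 ≤ R → R ^ ((26 : ℝ) / 100) ≤ T →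
  {k : ℤ | ∃ a b c d : ℤ, |(a : ℝ)| * T ^ 3 ≤ 200 * R ∧ |(b : ℝ)| * T ≤ 200 * R ∧
    |(c : ℝ)| ≤ 200 * (R * T) ∧ |(d : ℝ)| ≤ 200 * (R * T ^ 3) ∧ a ≠ 0 ∧
    disc4 a b c d = 4 * k}.Finite ∧
  ({k : ℤ | ∃ a b c d : ℤ, |(a : ℝ)| * T ^ 3 ≤ 200 * R ∧ |(b : ℝ)| * T ≤ 200 * R ∧
    |(c : ℝ)| ≤ 200 * (R * T) ∧ |(d : ℝ)| ≤ 200 * (R * T ^ 3) ∧ a ≠ 0 ∧
    disc4 a b c d = 4 * k}.ncard : ℝ) ≤ C * R ^ ((392 : ℝ) / 100)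

/-- CA0: the `k` with a vanishing first coefficient. -/
def StmtCA0 : Prop := ∀ R : ℝ, 20 ≤ R →
  {k : ℤ | |(k : ℝ)| ≤ R ^ 4 ∧ ∃ x y u v : ℤ, y ^ 2 = x ^ 3 + k ∧ 0 ≤ y ∧
    R ^ (3 : ℕ) ≤ (x : ℝ) ∧ IsCoprime u v ∧ 1 ≤ v ∧ |(u : ℝ) - √(x : ℝ) * v| * √(x : ℝ) ≤ R ∧
    u ^ 3 - 3 * x * u * v ^ 2 + 2 * y * v ^ 3 = 0}.Finite ∧
  ({k : ℤ | |(k : ℝ)| ≤ R ^ 4 ∧ ∃ x y u v : ℤ, y ^ 2 = x ^ 3 + k ∧ 0 ≤ y ∧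
    R ^ (3 : ℕ) ≤ (x : ℝ) ∧ IsCoprime u v ∧ 1 ≤ v ∧ |(u : ℝ) - √(x : ℝ) * v| * √(x : ℝ) ≤ R ∧
    u ^ 3 - 3 * x * u * v ^ 2 + 2 * y * v ^ 3 = 0}.ncard : ℝ) ≤ 100 * R ^ 3

/-- SMX: the `k` with a small point. -/
def StmtSMX : Prop := ∃ C : ℝ, 1 ≤ C ∧ ∀ K : ℝ, 1 ≤ K →
  ({k : ℤ | |(k : ℝ)| ≤ K ∧ ∃ x y : ℤ, y ^ 2 = x ^ 3 + k ∧
    (x : ℝ) ≤ K ^ ((98 : ℝ) / 100)}.ncard : ℝ) ≤ C * K ^ ((99 : ℝ) / 100)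

/-- FIN: the result. -/
def StmtFIN : Prop := ∃ M : ℝ, ∀ K : ℝ, 1 ≤ K →
  ({k : ℤ | k ≠ 0 ∧ |(k : ℝ)| ≤ K ∧ ∃ x y : ℤ, y ^ 2 = x ^ 3 + k ∧
    |(x : ℝ)| ≤ Real.exp (K ^ ((1 : ℝ) / 10000))}.ncard : ℝ) ≤ M * K ^ ((99 : ℝ) / 100)

end

end Pool.Agent.W223.HZ
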